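/-
Everywhere non-Hausdorff manifolds: an everywhere non-Hausdorff manifold whose least cover by
Euclidean open sets is larger than its least cover by Hausdorff open sets exists if and only if the
covering number of the meagre ideal is smaller than the continuum.
-/
import Mathlib

set_option autoImplicit false

open Set Topology
open scoped Cardinal

namespace Pool.Agent.Results.MP_434b1a_gt.CovCriterion

universe u

/-- `U` is an open subset homeomorphic to `ℝⁿ`. -/
def IsEuclidean (n : ℕ) {M : Type u} [TopologicalSpace M] (U : Set M) : Prop :=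
  IsOpen U ∧ Nonempty (U ≃ₜ (Fin n → ℝ))

/-- A manifold of dimension `n`, not necessarily Hausdorff: a connected space in which every point
has an open neighbourhood homeomorphic to `ℝⁿ`. -/
structure NManifold (n : ℕ) (M : Type u) [TopologicalSpace M] : Prop where
  /-- connected -/
  conn : ConnectedSpace M
  /-- locally Euclidean -/
  eucl : ∀ x : M, ∃ U : Set M, x ∈ U ∧ IsEuclidean n U

/-- `x` and `y` have no disjoint open neighbourhoods. -/
def NonSeparated {M : Type u} [TopologicalSpace M] (x y : M) : Prop :=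
  ∀ U V : Set M, IsOpen U → IsOpen V → x ∈ U → y ∈ V → (U ∩ V).Nonempty

/-- Everywhere non-Hausdorff: every point `x` has a non-empty set `NH(x)`. -/
def EverywhereNonHausdorff (M : Type u) [TopologicalSpace M] : Prop :=
  ∀ x : M, ∃ y : M, y ≠ x ∧ NonSeparated x y

/-- `𝓔(M)`: the least cardinality of a cover of `M` by open Euclidean subsets. -/
noncomputable def euclideanNumber (n : ℕ) (M : Type u) [TopologicalSpace M] : Cardinal.{u} :=
  sInf {κ | ∃ 𝒰 : Set (Set M), #𝒰 = κ ∧ (∀ U ∈ 𝒰, IsEuclidean n U) ∧ ⋃₀ 𝒰 = univ}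

/-- `𝓞𝓗(M)`: the least cardinality of a cover of `M` by open Hausdorff subsets. -/
noncomputable def hausdorffNumber (M : Type u) [TopologicalSpace M] : Cardinal.{u} :=
  sInf {κ | ∃ 𝒰 : Set (Set M), #𝒰 = κ ∧ (∀ U ∈ 𝒰, IsOpen U ∧ T2Space U) ∧ ⋃₀ 𝒰 = univ}

/-- `cov(𝓑)`: the least cardinal `κ` such that `ℝⁿ` is a union of `κ` nowhere dense sets, for some
`n ≥ 1` (it does not depend on `n`). -/
noncomputable def covB : Cardinal.{0} :=
  sInf {κ | ∃ n : ℕ, 1 ≤ n ∧ ∃ 𝒩 : Set (Set (Fin n → ℝ)), #𝒩 = κ ∧ (∀ N ∈ 𝒩, IsNowhereDense N) ∧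
    ⋃₀ 𝒩 = univ}

section Glue

variable {ι X M : Type} [TopologicalSpace X] (φ : ι → X → M)

/-- the glued topology -/
@[instance_reducible]
def glueTop : TopologicalSpace M := ⨆ i, TopologicalSpace.coinduced (φ i) inferInstance

theorem isOpen_glue (U : Set M) : IsOpen[glueTop φ] U ↔ ∀ i, IsOpen (φ i ⁻¹' U) := by
  unfold glueTop
  simp only [isOpen_iSup_iff, isOpen_coinduced]

theorem glue_openEmbedding (hinj : ∀ i, Function.Injective (φ i))
    (hov : ∀ (i j : ι) (O : Set X), IsOpen O → IsOpen (φ j ⁻¹' (φ i '' O))) (i : ι) :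
    @IsOpenEmbedding _ _ _ (glueTop φ) (φ i) := by
  let _ : TopologicalSpace M := glueTop φ
  refine IsOpenEmbedding.of_continuous_injective_isOpenMap ?_ (hinj i) ?_
  · rw [continuous_def]
    intro s hs
    exact (isOpen_glue φ s).1 hs i
  · intro O hO
    exact (isOpen_glue φ _).2 (fun j => hov i j O hO)

end Glue

section Line

variable {n : ℕ} 

/-- the manifold glued from copies of `ℝⁿ` -/
structure Line (𝒩 : Set (Set (Fin n → ℝ))) : Type where
  pt : Fin n → ℝ
  idx : Option 𝒩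
  mem : ∀ N : 𝒩, idx = some N → pt ∈ closure (N : Set (Fin n → ℝ))

variable {𝒩 : Set (Set (Fin n → ℝ))}

open Classical in
/-- charts -/
noncomputable def lc (i : Option 𝒩) (x : Fin n → ℝ) : Line 𝒩 :=
  if h : ∀ N : 𝒩, i = some N → x ∈ closure (N : Set (Fin n → ℝ)) then ⟨x, i, h⟩ else
    ⟨x, none, by rintro N hN; exact absurd hN (by simp)⟩

theorem lc_fst (i : Option 𝒩) (x : Fin n → ℝ) : (lc i x).pt = x := by
  unfold lc
  split_ifs <;> rfl

theorem lc_inj (i : Option 𝒩) : Function.Injective (lc i) := by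
  intro x y h
  rw [← lc_fst i x, ← lc_fst i y, h]

theorem lc_of_mem (N : 𝒩) (x : Fin n → ℝ) (h : x ∈ closure (N : Set (Fin n → ℝ))) :
    (lc (some N) x).idx = some N := by
  unfold lc
  rw [dif_pos]
  intro N' hN'
  cases hN'
  exact h

theorem lc_of_notMem (N : 𝒩) (x : Fin n → ℝ) (h : x ∉ closure (N : Set (Fin n → ℝ))) :
    lc (some N) x = lc none x := by
  unfold lc
  rw [dif_neg fun h' => h (h' N rfl), dif_pos]

theorem lc_none (x : Fin n → ℝ) : (lc (none : Option 𝒩) x).idx = none := by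
  unfold lc
  split_ifs <;> rfl

noncomputable instance : TopologicalSpace (Line 𝒩) := glueTop lc

theorem lc_surj (p : Line 𝒩) : ∃ i x, lc i x = p := by
  obtain ⟨x, i, hp⟩ := p
  refine ⟨i, x, ?_⟩
  unfold lc
  rw [dif_pos hp]

/-- the set where two charts agree -/
theorem lc_eq_iff (i j : Option 𝒩) (x y : Fin n → ℝ) : lc i x = lc j y ↔ x = y ∧
    (i = j ∨ ((∀ N : 𝒩, i = some N → x ∉ closure (N : Set (Fin n → ℝ))) ∧
      ∀ N : 𝒩, j = some N → x ∉ closure (N : Set (Fin n → ℝ)))) := by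
  constructor
  · intro h
    have hxy : x = y := by rw [← lc_fst i x, ← lc_fst j y, h]
    subst hxy
    refine ⟨rfl, ?_⟩
    by_contra hc
    have key : ∀ i j : Option 𝒩, i ≠ j → lc i x = lc j x → ∀ N : 𝒩, i = some N →
        x ∉ closure (N : Set (Fin n → ℝ)) := by
      rintro i j hij h N rfl hN
      have h1 := lc_of_mem N x hN
      rw [h] at h1
      cases j with
      | none => rw [lc_none] at h1; simp at h1
      | some N' =>
        by_cases h2 : x ∈ closure (N' : Set (Fin n → ℝ))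
        · rw [lc_of_mem N' x h2] at h1
          exact hij h1.symm
        · rw [lc_of_notMem N' x h2, lc_none] at h1
          simp at h1
    rw [not_or] at hc
    exact hc.2 ⟨key i j hc.1 h, key j i (Ne.symm hc.1) h.symm⟩
  · rintro ⟨rfl, rfl | ⟨h1, h2⟩⟩
    · rfl
    · have key : ∀ i : Option 𝒩, (∀ N : 𝒩, i = some N → x ∉ closure (N : Set (Fin n → ℝ))) →
          lc i x = lc none x := by
        intro i hi
        cases i with
        | none => rfl
        | some N => exact lc_of_notMem N x (hi N rfl)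
      rw [key i h1, key j h2]

theorem lc_overlap (i j : Option 𝒩) (O : Set (Fin n → ℝ)) (hO : IsOpen O) :
    IsOpen (lc j ⁻¹' (lc i '' O)) := by
  have hC : ∀ i : Option 𝒩, IsOpen {x : Fin n → ℝ | ∀ N : 𝒩, i = some N → x ∉ closure (N : Set (Fin n → ℝ))} := by
    intro i
    cases i with
    | none => simp
    | some N =>
      have : {x : Fin n → ℝ | ∀ N' : 𝒩, some N = some N' → x ∉ closure (N' : Set (Fin n → ℝ))} =
          (closure (N : Set (Fin n → ℝ)))ᶜ := by
        ext x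
        simp
      rw [this]
      exact isClosed_closure.isOpen_compl
  by_cases hij : i = j
  · subst hij
    rw [preimage_image_eq _ (lc_inj i)]
    exact hO
  · have : lc j ⁻¹' (lc i '' O) = O ∩ ({x | ∀ N : 𝒩, i = some N → x ∉ closure (N : Set (Fin n → ℝ))} ∩
        {x | ∀ N : 𝒩, j = some N → x ∉ closure (N : Set (Fin n → ℝ))}) := by
      ext y
      constructor
      · rintro ⟨x, hx, h⟩
        rw [lc_eq_iff] at h
        obtain ⟨rfl, h⟩ := h
        rcases h with h | h
        · exact absurd h hij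
        · exact ⟨hx, h⟩
      · rintro ⟨hy, h⟩
        exact ⟨y, hy, (lc_eq_iff _ _ _ _).2 ⟨rfl, Or.inr h⟩⟩
    rw [this]
    exact hO.inter ((hC i).inter (hC j))

theorem lc_emb (i : Option 𝒩) : IsOpenEmbedding (lc i) :=
  glue_openEmbedding lc lc_inj lc_overlap i

theorem line_meet (h𝒩 : ∀ N ∈ 𝒩, IsNowhereDense N) (N : 𝒩) (W : Set (Fin n → ℝ)) (hW : IsOpen W)
    (hne : W.Nonempty) : ∃ y ∈ W, lc (some N) y = lc none y := by
  have h1 := h𝒩 N N.2
  by_contra hc
  have h2 : W ⊆ closure (N : Set (Fin n → ℝ)) := by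
    intro y hy
    by_contra h3
    exact hc ⟨y, hy, lc_of_notMem N y h3⟩
  have h4 : W ⊆ interior (closure (N : Set (Fin n → ℝ))) := interior_maximal h2 hW
  rw [h1] at h4
  exact hne.not_subset_empty h4

theorem line_conn (h𝒩 : ∀ N ∈ 𝒩, IsNowhereDense N) : ConnectedSpace (Line 𝒩) := by
  have hne : Nonempty (Line 𝒩) := ⟨lc none 0⟩
  have hr : ∀ i : Option 𝒩, IsPreconnected (range (lc i)) := fun i =>
    isPreconnected_range (lc_emb i).continuous
  have hu : (⋃ i : Option 𝒩, (range (lc i) ∪ range (lc none)) : Set (Line 𝒩)) = univ := by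
    rw [eq_univ_iff_forall]
    intro p
    obtain ⟨i, x, rfl⟩ := lc_surj p
    exact mem_iUnion.2 ⟨i, Or.inl ⟨x, rfl⟩⟩
  have hc : IsPreconnected (univ : Set (Line 𝒩)) := by
    rw [← hu]
    refine isPreconnected_iUnion (⟨lc none 0, mem_iInter.2 fun i => Or.inr ⟨0, rfl⟩⟩) ?_
    · intro i
      cases i with
      | none => rw [union_self]; exact hr none
      | some N =>
        obtain ⟨y, -, hy⟩ := line_meet h𝒩 N univ isOpen_univ univ_nonempty
        exact IsPreconnected.union (lc none y) ⟨y, hy⟩ ⟨y, rfl⟩ (hr _) (hr _)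
  exact { isPreconnected_univ := hc, toNonempty := hne }

theorem line_enh (h𝒩 : ∀ N ∈ 𝒩, IsNowhereDense N) (hcov : ⋃₀ 𝒩 = univ) :
    EverywhereNonHausdorff (Line 𝒩) := by
  have key : ∀ (N : 𝒩) (x : Fin n → ℝ), NonSeparated (lc none x) (lc (some N) x) := by
    intro N x U V hU hV hxU hxV
    have h1 : IsOpen (lc none ⁻¹' U ∩ lc (some N) ⁻¹' V) :=
      (hU.preimage (lc_emb none).continuous).inter
        (hV.preimage (lc_emb (some N)).continuous)
    obtain ⟨y, ⟨hy1, hy2⟩, hy⟩ := line_meet h𝒩 N _ h1 ⟨x, hxU, hxV⟩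
    refine ⟨lc none y, hy1, ?_⟩
    rw [← hy]
    exact hy2
  have symm : ∀ p q : Line 𝒩, NonSeparated p q → NonSeparated q p := by
    intro p q h U V hU hV hp hq
    rw [inter_comm]
    exact h V U hV hU hq hp
  intro p
  obtain ⟨i, x, rfl⟩ := lc_surj p
  by_cases hi : (lc i x).idx = none
  · have h0 : lc i x = lc none x := by
      cases i with
      | none => rfl
      | some N =>
        by_cases hN : x ∈ closure (N : Set (Fin n → ℝ))
        · rw [lc_of_mem N x hN] at hi
          simp at hi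
        · exact lc_of_notMem N x hN
    rw [h0]
    have hx : x ∈ ⋃₀ 𝒩 := by rw [hcov]; exact mem_univ x
    obtain ⟨N, hN, hxN⟩ := hx
    refine ⟨lc (some ⟨N, hN⟩) x, ?_, key _ _⟩
    intro h
    have h1 := lc_of_mem ⟨N, hN⟩ x (subset_closure hxN)
    rw [h, lc_none] at h1
    simp at h1
  · cases i with
    | none => exact absurd (lc_none x) hi
    | some N =>
      refine ⟨lc none x, ?_, symm _ _ (key _ _)⟩
      intro h
      rw [← h] at hi
      exact hi (lc_none x)

end Line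

section Pruefer

/-- the points of the Prüfer surface: the upper half-plane (`idx = none`) and, for each real `a`, a
closed lower half-plane -/
structure Pru : Type where
  idx : Option ℝ
  pt : ℝ × ℝ
  upper : idx = none → 0 < pt.2
  lower : idx ≠ none → pt.2 ≤ 0

/-- charts -/
noncomputable def pc (a : ℝ) (w : ℝ × ℝ) : Pru :=
  if h : 0 < w.2 then ⟨none, (a + w.1 * w.2, w.2), fun _ => h, fun h' => absurd rfl h'⟩ else
    ⟨some a, w, fun h' => absurd h' (by simp), fun _ => not_lt.1 h⟩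

theorem pc_pos {a : ℝ} {w : ℝ × ℝ} (h : 0 < w.2) :
    (pc a w).idx = none ∧ (pc a w).pt = (a + w.1 * w.2, w.2) := by
  unfold pc
  rw [dif_pos h]
  exact ⟨rfl, rfl⟩

theorem pc_neg {a : ℝ} {w : ℝ × ℝ} (h : w.2 ≤ 0) :
    (pc a w).idx = some a ∧ (pc a w).pt = w := by
  unfold pc
  rw [dif_neg (not_lt.2 h)]
  exact ⟨rfl, rfl⟩

theorem pru_ext {p q : Pru} (h1 : p.idx = q.idx) (h2 : p.pt = q.pt) : p = q := by
  cases p
  cases q
  cases h1
  cases h2
  rfl

theorem pc_eq_iff (a b : ℝ) (w z : ℝ × ℝ) : pc a w = pc b z ↔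
    (0 < w.2 ∧ 0 < z.2 ∧ a + w.1 * w.2 = b + z.1 * z.2 ∧ w.2 = z.2) ∨ (a = b ∧ w = z) := by
  constructor
  · intro h
    rcases lt_or_ge 0 w.2 with hw | hw <;> rcases lt_or_ge 0 z.2 with hz | hz
    · left
      have h1 := (pc_pos (a := a) hw).2
      rw [h, (pc_pos hz).2] at h1
      rw [Prod.mk.injEq] at h1
      exact ⟨hw, hz, h1.1.symm, h1.2.symm⟩
    · have h1 := (pc_pos (a := a) hw).1
      rw [h, (pc_neg hz).1] at h1
      exact absurd h1 (by simp)
    · have h1 := (pc_neg (a := a) hw).1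
      rw [h, (pc_pos hz).1] at h1
      exact absurd h1 (by simp)
    · right
      have h1 := (pc_neg (a := a) hw).1
      have h2 := (pc_neg (a := a) hw).2
      rw [h, (pc_neg hz).1] at h1
      rw [h, (pc_neg hz).2] at h2
      exact ⟨(Option.some.inj h1).symm, h2.symm⟩
  · rintro (⟨hw, hz, h1, h2⟩ | ⟨rfl, rfl⟩)
    · apply pru_ext
      · rw [(pc_pos hw).1, (pc_pos hz).1]
      · rw [(pc_pos hw).2, (pc_pos hz).2, h1, h2]
    · rfl

theorem pc_inj (a : ℝ) : Function.Injective (pc a) := by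
  intro w z h
  rw [pc_eq_iff] at h
  rcases h with ⟨hw, hz, h1, h2⟩ | h
  · apply Prod.ext _ h2
    rw [h2] at h1
    have h3 : w.1 * z.2 = z.1 * z.2 := by linarith
    exact mul_right_cancel₀ hz.ne' h3
  · exact h.2

theorem pc_overlap (a b : ℝ) (O : Set (ℝ × ℝ)) (hO : IsOpen O) : IsOpen (pc b ⁻¹' (pc a '' O)) := by
  by_cases hab : a = b
  · subst hab
    rw [preimage_image_eq _ (pc_inj a)]
    exact hO
  · have h1 : pc b ⁻¹' (pc a '' O) = {z : ℝ × ℝ | 0 < z.2} ∩
        (fun z : ℝ × ℝ => ((b - a + z.1 * z.2) / z.2, z.2)) ⁻¹' O := by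
      ext z
      constructor
      · rintro ⟨w, hw, h⟩
        rw [pc_eq_iff] at h
        rcases h with ⟨hw0, hz0, h1, h2⟩ | ⟨h, -⟩
        · refine ⟨hz0, ?_⟩
          have h3 : ((b - a + z.1 * z.2) / z.2, z.2) = w := by
            apply Prod.ext
            · change (b - a + z.1 * z.2) / z.2 = w.1
              rw [div_eq_iff hz0.ne']
              rw [h2] at h1
              linarith
            · exact h2.symm
          change ((b - a + z.1 * z.2) / z.2, z.2) ∈ O
          rw [h3]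
          exact hw
        · exact absurd h hab
      · rintro ⟨hz, h⟩
        refine ⟨_, h, (pc_eq_iff _ _ _ _).2 (Or.inl ⟨hz, hz, ?_, rfl⟩)⟩
        change a + (b - a + z.1 * z.2) / z.2 * z.2 = b + z.1 * z.2
        have hz' : z.2 ≠ 0 := ne_of_gt hz
        field_simp
        ring
    rw [h1]
    have h2 : IsOpen {z : ℝ × ℝ | 0 < z.2} := isOpen_lt continuous_const continuous_snd
    have h3 : ContinuousOn (fun z : ℝ × ℝ => ((b - a + z.1 * z.2) / z.2, z.2)) {z : ℝ × ℝ | 0 < z.2} := by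
      apply ContinuousOn.prodMk
      · apply ContinuousOn.div
        · fun_prop
        · fun_prop
        · intro z hz
          exact ne_of_gt hz
      · fun_prop
    exact h3.isOpen_inter_preimage h2 hO

noncomputable instance : TopologicalSpace Pru := glueTop pc

theorem pc_emb (a : ℝ) : IsOpenEmbedding (pc a) := glue_openEmbedding pc pc_inj pc_overlap a

theorem pc_surj (p : Pru) : ∃ a w, pc a w = p := by
  rcases p with ⟨i, w, h1, h2⟩
  cases i with
  | none =>
    have hw := h1 rfl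
    refine ⟨0, (w.1 / w.2, w.2), ?_⟩
    have hw' : 0 < (w.1 / w.2, w.2).2 := hw
    apply pru_ext
    · exact (pc_pos hw').1
    · rw [(pc_pos hw').2]
      apply Prod.ext
      · change 0 + w.1 / w.2 * w.2 = w.1
        have := hw.ne'
        field_simp
        ring
      · rfl
  | some a =>
    have hw := h2 (by simp)
    refine ⟨a, w, pru_ext (pc_neg hw).1 (pc_neg hw).2⟩

theorem pc_up (a : ℝ) {w : ℝ × ℝ} (hw : 0 < w.2) (b : ℝ) : ∃ z, 0 < z.2 ∧ pc b z = pc a w := by
  refine ⟨((a - b + w.1 * w.2) / w.2, w.2), hw, (pc_eq_iff _ _ _ _).2 (Or.inl ⟨hw, hw, ?_, rfl⟩)⟩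
  change b + (a - b + w.1 * w.2) / w.2 * w.2 = a + w.1 * w.2
  have := hw.ne'
  field_simp
  ring

instance : ConnectedSpace Pru := by
  have hu : (⋃ a : ℝ, range (pc a)) = univ := by
    rw [eq_univ_iff_forall]
    intro p
    obtain ⟨a, w, rfl⟩ := pc_surj p
    exact mem_iUnion.2 ⟨a, w, rfl⟩
  have hc : IsPreconnected (univ : Set Pru) := by
    rw [← hu]
    refine isPreconnected_iUnion (⟨pc 0 (0, 1), mem_iInter.2 fun b => ?_⟩) ?_
    · obtain ⟨z, -, hz⟩ := pc_up 0 (w := (0, 1)) (by norm_num) b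
      exact ⟨z, hz⟩
    · intro a
      exact isPreconnected_range (pc_emb a).continuous
  exact { isPreconnected_univ := hc, toNonempty := ⟨pc 0 0⟩ }

instance : T2Space Pru := by
  refine ⟨fun p q hpq => ?_⟩
  -- points of a common chart
  have hcommon : ∀ (a : ℝ) (w z : ℝ × ℝ), w ≠ z → ∃ U V : Set Pru, IsOpen U ∧ IsOpen V ∧
      pc a w ∈ U ∧ pc a z ∈ V ∧ Disjoint U V := by
    intro a w z hwz
    obtain ⟨U, V, hU, hV, h1, h2, h3⟩ := t2_separation hwz
    refine ⟨pc a '' U, pc a '' V, (pc_emb a).isOpenMap U hU, (pc_emb a).isOpenMap V hV,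
      mem_image_of_mem _ h1, mem_image_of_mem _ h2, ?_⟩
    rw [disjoint_image_iff (pc_inj a)]
    exact h3
  obtain ⟨a, w, rfl⟩ := pc_surj p
  obtain ⟨b, z, rfl⟩ := pc_surj q
  by_cases hab : a = b
  · subst hab
    exact hcommon a w z (fun h => hpq (by rw [h]))
  rcases lt_or_ge 0 w.2 with hw | hw
  · obtain ⟨w', -, hw'⟩ := pc_up a hw b
    rw [← hw'] at hpq ⊢
    exact hcommon b w' z (fun h => hpq (by rw [h]))
  rcases lt_or_ge 0 z.2 with hz | hz
  · obtain ⟨z', -, hz'⟩ := pc_up b hz a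
    rw [← hz'] at hpq ⊢
    exact hcommon a w z' (fun h => hpq (by rw [h]))
  -- two points of different lower half-planes
  set K : ℝ := |w.1| + |z.1| + 2 with hK
  have hKpos : 0 < K := by positivity
  set ε : ℝ := |a - b| / K with hε
  have habpos : 0 < |a - b| := abs_pos.2 (sub_ne_zero.2 hab)
  have hεpos : 0 < ε := div_pos habpos hKpos
  let U0 : ℝ × ℝ → Set (ℝ × ℝ) := fun w => {y | |y.1 - w.1| < 1 ∧ y.2 < ε}
  have hU0 : ∀ w, IsOpen (U0 w) := by
    intro w
    have c1 : Continuous fun y : ℝ × ℝ => |y.1 - w.1| := (continuous_fst.sub continuous_const).abs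
    exact (isOpen_lt c1 continuous_const).inter (isOpen_lt continuous_snd continuous_const)
  refine ⟨pc a '' U0 w, pc b '' U0 z, (pc_emb a).isOpenMap _ (hU0 w),
    (pc_emb b).isOpenMap _ (hU0 z), mem_image_of_mem _ ⟨by simp, by linarith⟩,
    mem_image_of_mem _ ⟨by simp, by linarith⟩, ?_⟩
  rw [Set.disjoint_left]
  rintro _ ⟨y, ⟨hy1, hy2⟩, rfl⟩ ⟨y', ⟨hy1', hy2'⟩, h⟩
  rw [pc_eq_iff] at h
  rcases h with ⟨h0', h0, h1, h2⟩ | ⟨h, -⟩
  · rw [h2] at h1
    have e1 : a - b = (y'.1 - y.1) * y.2 := by linarith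
    have e2 : |a - b| = |y'.1 - y.1| * y.2 := by
      rw [e1, abs_mul, abs_of_pos h0]
    have e3 : |y'.1 - y.1| ≤ K := by
      have h3 : y'.1 - y.1 = (y'.1 - z.1) - (y.1 - w.1) + (z.1 - w.1) := by ring
      rw [h3]
      calc |y'.1 - z.1 - (y.1 - w.1) + (z.1 - w.1)| ≤ |y'.1 - z.1 - (y.1 - w.1)| + |z.1 - w.1| :=
            abs_add_le _ _
        _ ≤ (|y'.1 - z.1| + |y.1 - w.1|) + (|z.1| + |w.1|) :=
            add_le_add (abs_sub _ _) (abs_sub _ _)
        _ ≤ K := by rw [hK]; linarith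
    have e4 : |a - b| < |a - b| := by
      calc |a - b| = |y'.1 - y.1| * y.2 := e2
        _ ≤ K * y.2 := mul_le_mul_of_nonneg_right e3 h0.le
        _ < K * ε := mul_lt_mul_of_pos_left hy2 hKpos
        _ = |a - b| := by rw [hε]; field_simp
    exact lt_irrefl _ e4
  · exact hab h.symm

end Pruefer

section Product

variable {n : ℕ}

theorem isEuclidean_range {m : ℕ} {M : Type} [TopologicalSpace M] {X : Type} [TopologicalSpace X]
    (h : (Fin m → ℝ) ≃ₜ X) {e : X → M} (he : IsOpenEmbedding e) : IsEuclidean m (range e) :=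
  ⟨he.isOpen_range, ⟨(h.trans he.toIsEmbedding.toHomeomorph).symm⟩⟩

/-- `ℝⁿ⁺²` as a product -/
theorem exists_homeo (n : ℕ) : Nonempty ((Fin (n + 2) → ℝ) ≃ₜ (Fin n → ℝ) × (ℝ × ℝ)) := by
  have h : Module.finrank ℝ (Fin (n + 2) → ℝ) = Module.finrank ℝ ((Fin n → ℝ) × (ℝ × ℝ)) := by
    simp
  exact ⟨(ContinuousLinearEquiv.ofFinrankEq h).toHomeomorph⟩

variable {𝒩 : Set (Set (Fin n → ℝ))}

theorem prod_emb (i : Option 𝒩) (a : ℝ) : IsOpenEmbedding (Prod.map (lc i) (pc a)) :=
  (lc_emb i).prodMap (pc_emb a)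

theorem prod_manifold (h𝒩 : ∀ N ∈ 𝒩, IsNowhereDense N) : NManifold (n + 2) (Line 𝒩 × Pru) := by
  have : ConnectedSpace (Line 𝒩) := line_conn h𝒩
  refine ⟨inferInstance, ?_⟩
  rintro ⟨p, q⟩
  obtain ⟨i, x, rfl⟩ := lc_surj p
  obtain ⟨a, w, rfl⟩ := pc_surj q
  obtain ⟨h⟩ := exists_homeo n
  exact ⟨range (Prod.map (lc i) (pc a)), ⟨(x, w), rfl⟩, isEuclidean_range h (prod_emb i a)⟩

theorem prod_enh (h𝒩 : ∀ N ∈ 𝒩, IsNowhereDense N) (hcov : ⋃₀ 𝒩 = univ) :
    EverywhereNonHausdorff (Line 𝒩 × Pru) := by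
  rintro ⟨p, q⟩
  obtain ⟨p', hne, hp⟩ := line_enh h𝒩 hcov p
  refine ⟨(p', q), fun h => hne (congrArg Prod.fst h), ?_⟩
  intro U V hU hV hpU hpV
  have hc : Continuous fun r : Line 𝒩 => (r, q) := by fun_prop
  obtain ⟨r, hr1, hr2⟩ := hp _ _ (hU.preimage hc) (hV.preimage hc) hpU hpV
  exact ⟨(r, q), hr1, hr2⟩

theorem prod_oh : hausdorffNumber (Line 𝒩 × Pru) ≤ #𝒩 + 1 := by
  have h1 : hausdorffNumber (Line 𝒩 × Pru) ≤
      #(range fun i : Option 𝒩 => (range (lc i) ×ˢ univ : Set (Line 𝒩 × Pru))) := by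
    apply csInf_le' 
    refine ⟨_, rfl, ?_, ?_⟩
    · rintro _ ⟨i, rfl⟩
      refine ⟨(lc_emb i).isOpen_range.prod isOpen_univ, ?_⟩
      have h2 : T2Space (range (lc i)) :=
        (lc_emb i).toIsEmbedding.toHomeomorph.symm.isEmbedding.t2Space
      have h3 : Continuous fun z : ↥(range (lc i) ×ˢ univ : Set (Line 𝒩 × Pru)) =>
          ((⟨z.1.1, z.2.1⟩, z.1.2) : range (lc i) × Pru) := by
        fun_prop
      refine T2Space.of_injective_continuous ?_ h3
      intro z z' hz
      rw [Prod.mk.injEq, Subtype.mk.injEq] at hz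
      exact Subtype.ext (Prod.ext hz.1 hz.2)
    · rw [eq_univ_iff_forall]
      rintro ⟨p, q⟩
      obtain ⟨i, x, rfl⟩ := lc_surj p
      exact ⟨_, ⟨i, rfl⟩, ⟨x, rfl⟩, mem_univ _⟩
  refine h1.trans (Cardinal.mk_range_le.trans ?_)
  rw [Cardinal.mk_option]

theorem prod_e (m : ℕ)
    (hM : NManifold m (Line 𝒩 × Pru)) : 𝔠 ≤ euclideanNumber m (Line 𝒩 × Pru) := by
  apply le_csInf
  · refine ⟨_, {U | IsEuclidean m U}, rfl, fun U hU => hU, ?_⟩
    rw [eq_univ_iff_forall]
    intro x
    obtain ⟨U, hx, hU⟩ := hM.eucl x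
    exact ⟨U, hU, hx⟩
  · rintro κ ⟨𝒱, rfl, h𝒱, hcov⟩
    by_contra hlt
    rw [not_le] at hlt
    let f : ℝ → Line 𝒩 × Pru := fun a => (lc none 0, pc a (0, 0))
    have hf : ∀ a b, f b ∈ (univ ×ˢ range (pc a) : Set (Line 𝒩 × Pru)) → b = a := by
      rintro a b ⟨-, w, hw⟩
      rw [pc_eq_iff] at hw
      rcases hw with ⟨-, h, -⟩ | ⟨h, -⟩
      · exact absurd h (lt_irrefl _)
      · exact h.symm
    have hcount : ∀ V ∈ 𝒱, (f ⁻¹' V).Countable := by
      intro V hV
      obtain ⟨hVo, ⟨h⟩⟩ := h𝒱 V hV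
      have hsc : SecondCountableTopology V := h.secondCountableTopology
      have hch : ∀ a : f ⁻¹' V, ∃ B ∈ TopologicalSpace.countableBasis V, (⟨f a, a.2⟩ : V) ∈ B ∧
          B ⊆ Subtype.val ⁻¹' (univ ×ˢ range (pc a) : Set (Line 𝒩 × Pru)) := by
        intro a
        have ho : IsOpen (Subtype.val ⁻¹' (univ ×ˢ range (pc a) : Set (Line 𝒩 × Pru)) : Set V) :=
          (isOpen_univ.prod (pc_emb a).isOpen_range).preimage continuous_subtype_val
        exact (TopologicalSpace.isBasis_countableBasis V).exists_subset_of_mem_open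
          (⟨mem_univ _, (0, 0), rfl⟩) ho
      choose B hB1 hB2 hB3 using hch
      have hinj : Function.Injective fun a : f ⁻¹' V =>
          (⟨B a, hB1 a⟩ : TopologicalSpace.countableBasis V) := by
        intro a b hab
        have h1 : B a = B b := congrArg Subtype.val hab
        have h2 := hB2 b
        rw [← h1] at h2
        exact Subtype.ext (hf _ _ (hB3 a h2)).symm
      have : Countable (TopologicalSpace.countableBasis V) :=
        (TopologicalSpace.countable_countableBasis V).to_subtype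
      exact countable_coe_iff.1 hinj.countable
    have h1 : (⋃ V : 𝒱, f ⁻¹' (V : Set (Line 𝒩 × Pru))) = univ := by
      rw [eq_univ_iff_forall]
      intro a
      have : f a ∈ ⋃₀ 𝒱 := by rw [hcov]; exact mem_univ _
      obtain ⟨V, hV, ha⟩ := this
      exact mem_iUnion.2 ⟨⟨V, hV⟩, ha⟩
    have h2 : 𝔠 ≤ #𝒱 * ℵ₀ := by
      calc 𝔠 = #(univ : Set ℝ) := by rw [Cardinal.mk_univ, Cardinal.mk_real]
        _ = #(⋃ V : 𝒱, f ⁻¹' (V : Set (Line 𝒩 × Pru)) : Set ℝ) := by rw [h1]
        _ ≤ #𝒱 * ⨆ V : 𝒱, #(f ⁻¹' (V : Set (Line 𝒩 × Pru)) : Set ℝ) := Cardinal.mk_iUnion_le _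
        _ ≤ #𝒱 * ℵ₀ := by
          gcongr
          exact ciSup_le' fun V => Cardinal.mk_le_aleph0_iff.2 (hcount V V.2).to_subtype
    exact absurd (h2.trans_lt (Cardinal.mul_lt_of_lt Cardinal.aleph0_le_continuum hlt
      Cardinal.aleph0_lt_continuum)) (lt_irrefl _)

end Product

section Size

/-- arities of the three operations: base point, chart, limit -/
def Ar : Option (Option ℝ) → Type
  | none => Empty
  | some none => ℕ
  | some (some _) => Unit

theorem mk_tree : #(WType Ar) ≤ 𝔠 := by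
  apply WType.cardinalMk_le_of_le'
  have h1 : ∀ a, (𝔠 : Cardinal.{0}) ^ Cardinal.lift.{0} #(Ar a) ≤ 𝔠 := by
    intro a
    match a with
    | none =>
      have : #(Ar none) = 0 := Cardinal.mk_eq_zero Empty
      rw [this]
      simpa using (Cardinal.nat_lt_continuum 1).le
    | some none =>
      have : #(Ar (some none)) = ℵ₀ := Cardinal.mk_nat
      rw [this]
      simp
    | some (some _) =>
      have : #(Ar (some (some (‹ℝ› : ℝ)))) = 1 := Cardinal.mk_unit
      rw [this]
      simp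
  calc Cardinal.sum (fun a => (𝔠 : Cardinal.{0}) ^ Cardinal.lift.{0} #(Ar a))
      ≤ Cardinal.sum fun _ : Option (Option ℝ) => (𝔠 : Cardinal.{0}) := Cardinal.sum_le_sum _ _ h1
    _ = #(Option (Option ℝ)) * 𝔠 := by rw [Cardinal.sum_const']
    _ = 𝔠 := by
      rw [Cardinal.mk_option, Cardinal.mk_option, Cardinal.mk_real]
      rw [add_assoc, Cardinal.add_eq_left Cardinal.aleph0_le_continuum]
      · simp
      · norm_num
        exact_mod_cast (Cardinal.nat_lt_continuum 2).le

/-- A connected Hausdorff first countable space whose points have neighbourhoods of size at most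
`𝔠` has size at most `𝔠`. -/
theorem card_le (X : Type) [TopologicalSpace X] [ConnectedSpace X] [T2Space X]
    [FirstCountableTopology X] (h : ∀ x : X, ∃ U : Set X, IsOpen U ∧ x ∈ U ∧ #U ≤ 𝔠) : #X ≤ 𝔠 := by
  classical
  choose U hUo hxU hUc using h
  have hs : ∀ x : X, ∃ f : ℝ → X, U x ⊆ range f ∧ range f ⊆ U x := by
    intro x
    have h1 : #(U x) ≤ #ℝ := by rw [Cardinal.mk_real]; exact hUc x
    obtain ⟨⟨g, hg⟩⟩ := h1
    have : Nonempty (U x) := ⟨⟨x, hxU x⟩⟩
    refine ⟨fun r => (Function.invFun g r : U x), ?_, ?_⟩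
    · intro y hy
      exact ⟨g ⟨y, hy⟩, congrArg Subtype.val (Function.leftInverse_invFun hg ⟨y, hy⟩)⟩
    · rintro _ ⟨r, rfl⟩
      exact (Function.invFun g r : U x).2
  choose e he1 he2 using hs
  obtain ⟨x₀⟩ : Nonempty X := inferInstance
  let lim : (ℕ → X) → X := fun s => if h : ∃ x, Filter.Tendsto s Filter.atTop (𝓝 x) then h.choose else x₀
  have hlim : ∀ (s : ℕ → X) (x : X), Filter.Tendsto s Filter.atTop (𝓝 x) → lim s = x := by
    intro s x hx
    have h : ∃ x, Filter.Tendsto s Filter.atTop (𝓝 x) := ⟨x, hx⟩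
    change (if h : ∃ x, Filter.Tendsto s Filter.atTop (𝓝 x) then h.choose else x₀) = x
    rw [dif_pos h]
    exact tendsto_nhds_unique h.choose_spec hx
  let ev : WType Ar → X := fun t => WType.elim X
    (fun z : Σ a, (Ar a → X) => match z with
      | ⟨none, _⟩ => x₀
      | ⟨some none, s⟩ => lim s
      | ⟨some (some r), s⟩ => e (s ()) r) t
  have hclopen : IsClopen (range ev) := by
    constructor
    · rw [← closure_subset_iff_isClosed]
      intro x hx
      obtain ⟨s, hs1, hs2⟩ := mem_closure_iff_seq_limit.1 hx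
      choose t ht using hs1
      refine ⟨WType.mk (some none) t, ?_⟩
      change lim (fun n => ev (t n)) = x
      apply hlim
      have : (fun n => ev (t n)) = s := funext ht
      rw [this]
      exact hs2
    · rw [isOpen_iff_mem_nhds]
      rintro _ ⟨t, rfl⟩
      refine Filter.mem_of_superset ((hUo (ev t)).mem_nhds (hxU (ev t))) ?_
      intro y hy
      obtain ⟨r, hr⟩ := he1 _ hy
      exact ⟨WType.mk (some (some r)) fun _ => t, hr⟩
  have huniv : range ev = univ := by
    rcases isClopen_iff.1 hclopen with h | h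
    · have : ev (WType.mk none Empty.elim) ∈ (∅ : Set X) := by rw [← h]; exact ⟨_, rfl⟩
      exact absurd this (notMem_empty _)
    · exact h
  exact (Cardinal.mk_le_of_surjective (range_eq_univ.1 huniv)).trans mk_tree

variable {n : ℕ} {M : Type} [TopologicalSpace M]

theorem chart (hM : NManifold n M) (x : M) : ∃ e : (Fin n → ℝ) → M, IsOpenEmbedding e ∧ x ∈ range e := by
  obtain ⟨U, hx, hU, ⟨h⟩⟩ := hM.eucl x
  refine ⟨fun v => (h.symm v : M), hU.isOpenEmbedding_subtypeVal.comp h.symm.isOpenEmbedding, ?_⟩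
  exact ⟨h ⟨x, hx⟩, by simp⟩

theorem locConn (hM : NManifold n M) : LocallyConnectedSpace M := by
  rw [locallyConnectedSpace_iff_subsets_isOpen_isConnected]
  intro x U hU
  obtain ⟨e, he, a, rfl⟩ := chart hM x
  have h1 : e ⁻¹' U ∈ 𝓝 a := he.continuous.continuousAt hU
  obtain ⟨ε, hε, hb⟩ := Metric.mem_nhds_iff.1 h1
  refine ⟨e '' Metric.ball a ε, ?_, he.isOpenMap _ Metric.isOpen_ball,
    mem_image_of_mem _ (Metric.mem_ball_self hε), ?_⟩
  · rintro _ ⟨y, hy, rfl⟩
    exact hb hy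
  · exact (Metric.isConnected_ball hε).image _ he.continuous.continuousOn

theorem firstCount (hM : NManifold n M) : FirstCountableTopology M := by
  refine ⟨fun x => ?_⟩
  obtain ⟨e, he, a, rfl⟩ := chart hM x
  rw [← he.map_nhds_eq a]
  infer_instance

theorem mk_fin_le : #(Fin n → ℝ) ≤ 𝔠 := by
  rw [Cardinal.mk_arrow, Cardinal.mk_real]
  simp only [Cardinal.lift_continuum, Cardinal.mk_fin, Cardinal.lift_natCast, Cardinal.power_natCast]
  exact Cardinal.pow_le Cardinal.aleph0_le_continuum Cardinal.natCast_lt_aleph0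

/-- a component of an open Hausdorff subset has at most `𝔠` points -/
theorem comp_card (hM : NManifold n M) (U : Set M) (hT : T2Space U) (x : M)
    (hx : x ∈ U) : #(connectedComponentIn U x) ≤ 𝔠 := by
  have h1 := locConn hM
  have h2 := firstCount hM
  have h3 : ConnectedSpace (connectedComponentIn U x) :=
    isConnected_iff_connectedSpace.1 (isConnected_connectedComponentIn_iff.2 hx)
  have h4 : T2Space (connectedComponentIn U x) := by
    have hc : Continuous fun z : connectedComponentIn U x =>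
        (⟨z.1, connectedComponentIn_subset U x z.2⟩ : U) := by fun_prop
    refine T2Space.of_injective_continuous ?_ hc
    intro z z' hz
    rw [Subtype.mk.injEq] at hz
    exact Subtype.ext hz
  apply card_le
  intro y
  obtain ⟨e, he, hy⟩ := chart hM (y : M)
  refine ⟨Subtype.val ⁻¹' range e, he.isOpen_range.preimage continuous_subtype_val, hy, ?_⟩
  have h5 : #(Subtype.val ⁻¹' range e : Set (connectedComponentIn U x)) ≤ #(range e) :=
    Cardinal.mk_preimage_of_injective _ _ Subtype.val_injective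
  exact h5.trans (Cardinal.mk_range_le.trans mk_fin_le)

/-- the size of a manifold covered by open Hausdorff sets -/
theorem size_le (hM : NManifold n M) (𝒰 : Set (Set M)) (h𝒰 : ∀ U ∈ 𝒰, IsOpen U ∧ T2Space U)
    (hcov : ⋃₀ 𝒰 = univ) : #M ≤ max #𝒰 𝔠 := by
  classical
  have h1 := locConn hM
  have hconn := hM.conn
  have hs : ∀ (U : 𝒰) (x : M), ∃ f : ℝ → M, (x ∈ (U : Set M) → connectedComponentIn U x = range f) := by
    intro U x
    by_cases hx : x ∈ (U : Set M)
    · have h1 : #(connectedComponentIn (U : Set M) x) ≤ #ℝ := by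
        rw [Cardinal.mk_real]; exact comp_card hM U (h𝒰 U U.2).2 x hx
      obtain ⟨⟨g, hg⟩⟩ := h1
      have : Nonempty (connectedComponentIn (U : Set M) x) := ⟨⟨x, mem_connectedComponentIn hx⟩⟩
      refine ⟨fun r => (Function.invFun g r : connectedComponentIn (U : Set M) x), fun _ => ?_⟩
      apply Subset.antisymm
      · intro y hy
        exact ⟨g ⟨y, hy⟩, congrArg Subtype.val (Function.leftInverse_invFun hg ⟨y, hy⟩)⟩
      · rintro _ ⟨r, rfl⟩
        exact (Function.invFun g r : connectedComponentIn (U : Set M) x).2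
    · exact ⟨fun _ => x, fun h => absurd h hx⟩
  choose f hf using hs
  obtain ⟨x₀⟩ : Nonempty M := inferInstance
  let ev : List (𝒰 × ℝ) → M := fun l => l.foldr (fun z y => f z.1 y z.2) x₀
  have key : ∀ (l : List (𝒰 × ℝ)) (U : 𝒰), ev l ∈ (U : Set M) →
      connectedComponentIn (U : Set M) (ev l) ⊆ range ev := by
    intro l U hl y hy
    rw [hf U _ hl] at hy
    obtain ⟨r, rfl⟩ := hy
    exact ⟨(U, r) :: l, rfl⟩
  have hclopen : IsClopen (range ev) := by
    constructor
    · rw [← isOpen_compl_iff, isOpen_iff_mem_nhds]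
      intro x hx
      have hxu : x ∈ ⋃₀ 𝒰 := by rw [hcov]; exact mem_univ _
      obtain ⟨U, hU, hxU⟩ := hxu
      refine Filter.mem_of_superset ((h𝒰 U hU).1.connectedComponentIn.mem_nhds
        (mem_connectedComponentIn hxU)) ?_
      rintro y hy ⟨l, rfl⟩
      apply hx
      have h2 := key l ⟨U, hU⟩ (connectedComponentIn_subset _ _ hy)
      apply h2
      change x ∈ connectedComponentIn U (ev l)
      rw [← connectedComponentIn_eq hy]
      exact mem_connectedComponentIn hxU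
    · rw [isOpen_iff_mem_nhds]
      rintro _ ⟨l, rfl⟩
      have hxu : ev l ∈ ⋃₀ 𝒰 := by rw [hcov]; exact mem_univ _
      obtain ⟨U, hU, hxU⟩ := hxu
      exact Filter.mem_of_superset ((h𝒰 U hU).1.connectedComponentIn.mem_nhds
        (mem_connectedComponentIn hxU)) (key l ⟨U, hU⟩ hxU)
  have huniv : range ev = univ := by
    rcases isClopen_iff.1 hclopen with h | h
    · have : ev [] ∈ (∅ : Set M) := by rw [← h]; exact ⟨_, rfl⟩
      exact absurd this (notMem_empty _)
    · exact h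
  refine (Cardinal.mk_le_of_surjective (range_eq_univ.1 huniv)).trans
    ((Cardinal.mk_list_le_max _).trans ?_)
  rw [Cardinal.mk_prod, Cardinal.mk_real]
  simp only [Cardinal.lift_uzero]
  apply max_le
  · exact Cardinal.aleph0_le_continuum.trans (le_max_right _ _)
  · refine (Cardinal.mul_le_max _ _).trans ?_
    exact max_le le_rfl (Cardinal.aleph0_le_continuum.trans (le_max_right _ _))

/-- `𝓔(M)` is at most the number of points -/
theorem e_le (hM : NManifold n M) : euclideanNumber n M ≤ #M := by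
  have h := hM.eucl
  choose U hx hU using h
  have h1 : euclideanNumber n M ≤ #(range U) := by
    apply csInf_le'
    refine ⟨_, rfl, ?_, ?_⟩
    · rintro _ ⟨x, rfl⟩
      exact hU x
    · rw [eq_univ_iff_forall]
      intro x
      exact ⟨_, ⟨x, rfl⟩, hx x⟩
  exact h1.trans Cardinal.mk_range_le

/-- an everywhere non-Hausdorff manifold has no cover by fewer than `cov(𝓑)` open Hausdorff sets -/
theorem covB_le (hM : NManifold n M) (hE : EverywhereNonHausdorff M) (𝒰 : Set (Set M))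
    (h𝒰 : ∀ U ∈ 𝒰, IsOpen U ∧ T2Space U) (hcov : ⋃₀ 𝒰 = univ) : covB ≤ #𝒰 := by
  have hconn := hM.conn
  obtain ⟨x₀⟩ : Nonempty M := inferInstance
  obtain ⟨e, he, -⟩ := chart hM x₀
  have hnd : ∀ U : Set M, IsOpen U → IsNowhereDense (e ⁻¹' frontier U) := by
    intro U hU
    rw [(isClosed_frontier.preimage he.continuous).isNowhereDense_iff]
    rw [eq_empty_iff_forall_notMem]
    intro x hx
    have h1 : IsOpen (e '' interior (e ⁻¹' frontier U)) := he.isOpenMap _ isOpen_interior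
    have h2 : e '' interior (e ⁻¹' frontier U) ⊆ frontier U := by
      rintro _ ⟨y, hy, rfl⟩
      have h2 : y ∈ e ⁻¹' frontier U := interior_subset hy
      exact h2
    have h3 : e x ∈ closure U := (h2 (mem_image_of_mem _ hx)).1
    obtain ⟨y, hy1, hy2⟩ := mem_closure_iff.1 h3 _ h1 (mem_image_of_mem _ hx)
    have h4 := h2 hy1
    rw [hU.frontier_eq] at h4
    exact h4.2 hy2
  have hcov' : ∀ x : Fin n → ℝ, ∃ U ∈ 𝒰, x ∈ e ⁻¹' frontier U := by
    intro x
    obtain ⟨y, hne, hy⟩ := hE (e x)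
    have : y ∈ ⋃₀ 𝒰 := by rw [hcov]; exact mem_univ _
    obtain ⟨U, hU, hyU⟩ := this
    refine ⟨U, hU, ?_⟩
    change e x ∈ frontier U
    rw [(h𝒰 U hU).1.frontier_eq]
    constructor
    · rw [mem_closure_iff]
      intro V hV hxV
      exact hy V U hV (h𝒰 U hU).1 hxV hyU
    · intro hxU
      have := (h𝒰 U hU).2
      obtain ⟨A, B, hA, hB, h1, h2, h3⟩ := t2_separation
        (show (⟨e x, hxU⟩ : U) ≠ ⟨y, hyU⟩ from fun h => hne (congrArg Subtype.val h).symm)
      obtain ⟨z, hz1, hz2⟩ := hy (Subtype.val '' A) (Subtype.val '' B)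
        ((h𝒰 U hU).1.isOpenMap_subtype_val _ hA) ((h𝒰 U hU).1.isOpenMap_subtype_val _ hB)
        ⟨_, h1, rfl⟩ ⟨_, h2, rfl⟩
      obtain ⟨a, ha, rfl⟩ := hz1
      obtain ⟨b, hb, hab⟩ := hz2
      have : b = a := Subtype.ext hab
      subst this
      exact Set.disjoint_left.1 h3 ha hb
  have h0 : 1 ≤ n := by
    by_contra hn
    have hn0 : n = 0 := by omega
    subst hn0
    obtain ⟨U, hU, hx⟩ := hcov' default
    have h1 := hnd U (h𝒰 U hU).1
    have h2 : e ⁻¹' frontier U = univ := by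
      rw [eq_univ_iff_forall]
      intro y
      rw [Subsingleton.elim y default]
      exact hx
    rw [h2] at h1
    unfold IsNowhereDense at h1
    rw [closure_univ, interior_univ] at h1
    exact univ_nonempty.ne_empty h1
  have h1 : covB ≤ #((fun U : Set M => e ⁻¹' frontier U) '' 𝒰) := by
    apply csInf_le'
    refine ⟨n, h0, _, rfl, ?_, ?_⟩
    · rintro _ ⟨U, hU, rfl⟩
      exact hnd U (h𝒰 U hU).1
    · rw [eq_univ_iff_forall]
      intro x
      obtain ⟨U, hU, hx⟩ := hcov' x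
      exact ⟨_, ⟨U, hU, rfl⟩, hx⟩
  exact h1.trans Cardinal.mk_image_le

end Size

/-- the invariant `covB` is attained -/
theorem covB_attained : ∃ n : ℕ, 1 ≤ n ∧ ∃ 𝒩 : Set (Set (Fin n → ℝ)), #𝒩 = covB ∧
    (∀ N ∈ 𝒩, IsNowhereDense N) ∧ ⋃₀ 𝒩 = univ := by
  refine csInf_mem (s := {κ | ∃ n : ℕ, 1 ≤ n ∧ ∃ 𝒩 : Set (Set (Fin n → ℝ)), #𝒩 = κ ∧
    (∀ N ∈ 𝒩, IsNowhereDense N) ∧ ⋃₀ 𝒩 = univ}) ?_
  refine ⟨_, 1, le_rfl, range fun x : Fin 1 → ℝ => ({x} : Set (Fin 1 → ℝ)), rfl, ?_, ?_⟩
  · rintro _ ⟨x, rfl⟩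
    rw [isClosed_singleton.isNowhereDense_iff]
    exact interior_singleton x
  · rw [eq_univ_iff_forall]
    intro x
    exact ⟨_, ⟨x, rfl⟩, rfl⟩

/-- **Main theorem.** An everywhere non-Hausdorff manifold `M` with `𝓔(M) > 𝓞𝓗(M)` exists if and
only if `cov(𝓑) < 2^ω`. -/
theorem result :
    (∃ (n : ℕ) (M : Type) (_ : TopologicalSpace M), NManifold n M ∧ EverywhereNonHausdorff M ∧
      hausdorffNumber M < euclideanNumber n M) ↔ covB < 𝔠 := by
  constructor
  · rintro ⟨n, M, _, hM, hE, hlt⟩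
    by_contra hc
    rw [not_lt] at hc
    have hne : {κ | ∃ 𝒰 : Set (Set M), #𝒰 = κ ∧ (∀ U ∈ 𝒰, IsOpen U ∧ T2Space U) ∧
        ⋃₀ 𝒰 = univ}.Nonempty := by
      refine ⟨_, {U | IsEuclidean n U}, rfl, ?_, ?_⟩
      · rintro U ⟨hU, ⟨h⟩⟩
        exact ⟨hU, h.isEmbedding.t2Space⟩
      · rw [eq_univ_iff_forall]
        intro x
        obtain ⟨U, hx, hU⟩ := hM.eucl x
        exact ⟨U, hU, hx⟩
    obtain ⟨𝒰, h1, h2, h3⟩ := csInf_mem hne
    change #𝒰 = hausdorffNumber M at h1
    have h4 := covB_le hM hE 𝒰 h2 h3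
    have h5 := size_le hM 𝒰 h2 h3
    rw [max_eq_left (hc.trans h4), h1] at h5
    exact absurd (hlt.trans_le ((e_le hM).trans h5)) (lt_irrefl _)
  · intro hc
    obtain ⟨n, -, 𝒩, h1, h2, h3⟩ := covB_attained
    refine ⟨n + 2, Line 𝒩 × Pru, inferInstance, prod_manifold h2, prod_enh h2 h3, ?_⟩
    refine prod_oh.trans_lt (lt_of_lt_of_le ?_ (prod_e (n + 2) (prod_manifold h2)))
    rw [h1]
    exact Cardinal.add_lt_of_lt Cardinal.aleph0_le_continuum hc
      (Cardinal.one_lt_aleph0.trans Cardinal.aleph0_lt_continuum)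

end Pool.Agent.Results.MP_434b1a_gt.CovCriterion
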